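import Mathlib

/-!
# Partitions: removing a part, monotone second differences, growth
-/

open Finset

namespace Pool.Agent.Helper32.RP

/-- the number of partitions of `k` into parts from `{1, ..., m}` -/
def P (m k : ℕ) : ℕ :=
  ((univ : Finset (Nat.Partition k)).filter (fun l => ∀ i ∈ l.parts, i ≤ m)).card

/-- the number of partitions of `k` -/
def pn (k : ℕ) : ℕ := (univ : Finset (Nat.Partition k)).card

/-- the number of partitions of `k` without a part `1` -/
def D (k : ℕ) : ℕ := ((univ : Finset (Nat.Partition k)).filter (fun l => 1 ∉ l.parts)).card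

/-- add a part -/
def addPart (j : ℕ) (hj : 0 < j) {a : ℕ} (l : Nat.Partition a) : Nat.Partition (a + j) where
  parts := j ::ₘ l.parts
  parts_pos := by
    intro i hi
    rcases Multiset.mem_cons.1 hi with rfl | h
    · exact hj
    · exact l.parts_pos h
  parts_sum := by rw [Multiset.sum_cons, l.parts_sum, add_comm]

lemma addPart_injective (j : ℕ) (hj : 0 < j) {a : ℕ} :
    Function.Injective (addPart j hj : Nat.Partition a → Nat.Partition (a + j)) := by
  intro l l' h
  apply Nat.Partition.ext
  have h1 : j ::ₘ l.parts = j ::ₘ l'.parts := congrArg Nat.Partition.parts h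
  exact (Multiset.cons_inj_right j).1 h1

lemma card_mem (a j : ℕ) (hj : 0 < j) :
    ((univ : Finset (Nat.Partition (a + j))).filter (fun l => j ∈ l.parts)).card = pn a := by
  symm
  refine card_nbij (fun l => addPart j hj l) ?_ ?_ ?_
  · intro l _
    exact mem_filter.2 ⟨mem_univ _, Multiset.mem_cons_self _ _⟩
  · intro l _ l' _ h
    exact addPart_injective j hj h
  · intro l hl
    have hl' : j ∈ l.parts := (mem_filter.1 (mem_coe.1 hl)).2
    have hsum : j + (l.parts.erase j).sum = a + j := by
      rw [Multiset.sum_erase hl', l.parts_sum]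
    refine ⟨⟨l.parts.erase j, fun hi => l.parts_pos (Multiset.mem_of_mem_erase hi), by omega⟩,
      mem_coe.2 (mem_univ _), ?_⟩
    apply Nat.Partition.ext
    exact Multiset.cons_erase hl'

lemma pn_succ (a : ℕ) : pn (a + 1) = pn a + D (a + 1) := by
  have h := card_filter_add_card_filter_not (s := (univ : Finset (Nat.Partition (a + 1))))
    (fun l => 1 ∈ l.parts)
  rw [card_mem a 1 (by norm_num)] at h
  exact h.symm

lemma pn_mono : Monotone pn := by
  refine monotone_nat_of_le_succ fun a => ?_
  rw [pn_succ]; omega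

lemma pn_pos (k : ℕ) : 0 < pn k := by
  have h0 : 0 < pn 0 := by decide
  exact h0.trans_le (pn_mono (Nat.zero_le k))

lemma sup_mem {s : Multiset ℕ} (hs : s ≠ 0) : s.sup ∈ s := by
  induction s using Multiset.induction with
  | empty => exact absurd rfl hs
  | cons a s ih =>
    rw [Multiset.sup_cons]
    by_cases h : s = 0
    · subst h; simp
    · have h1 := ih h
      rcases le_total a s.sup with h2 | h2
      · rw [sup_eq_right.2 h2]; exact Multiset.mem_cons_of_mem h1
      · rw [sup_eq_left.2 h2]; exact Multiset.mem_cons_self _ _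

lemma parts_ne_zero {k : ℕ} (hk : 0 < k) (l : Nat.Partition k) : l.parts ≠ 0 := by
  intro h
  have := l.parts_sum
  rw [h, Multiset.sum_zero] at this
  omega

/-- increase the largest part by one -/
def up {k : ℕ} (hk : 0 < k) (l : Nat.Partition k) : Nat.Partition (k + 1) where
  parts := (l.parts.sup + 1) ::ₘ l.parts.erase l.parts.sup
  parts_pos := by
    intro i hi
    rcases Multiset.mem_cons.1 hi with rfl | h
    · omega
    · exact l.parts_pos (Multiset.mem_of_mem_erase h)
  parts_sum := by
    have h1 := Multiset.sum_erase (sup_mem (parts_ne_zero hk l))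
    rw [l.parts_sum] at h1
    rw [Multiset.sum_cons]
    omega

lemma up_sup {k : ℕ} (hk : 0 < k) (l : Nat.Partition k) :
    (up hk l).parts.sup = l.parts.sup + 1 := by
  show ((l.parts.sup + 1) ::ₘ l.parts.erase l.parts.sup).sup = _
  rw [Multiset.sup_cons]
  refine sup_eq_left.2 ?_
  refine Multiset.sup_le.2 fun b hb => ?_
  exact (Multiset.le_sup (Multiset.mem_of_mem_erase hb)).trans (Nat.le_succ _)

lemma up_injective {k : ℕ} (hk : 0 < k) : Function.Injective (up hk) := by
  intro l l' h
  apply Nat.Partition.ext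
  have h1 : l.parts.sup = l'.parts.sup := by
    have := congrArg (fun q : Nat.Partition (k + 1) => q.parts.sup) h
    simp only [up_sup] at this
    omega
  have h2 : (l.parts.sup + 1) ::ₘ l.parts.erase l.parts.sup =
      (l'.parts.sup + 1) ::ₘ l'.parts.erase l'.parts.sup := congrArg Nat.Partition.parts h
  rw [h1] at h2
  have h3 := (Multiset.cons_inj_right _).1 h2
  have h4 := Multiset.cons_erase (sup_mem (parts_ne_zero hk l))
  have h5 := Multiset.cons_erase (sup_mem (parts_ne_zero hk l'))
  rw [← h4, ← h5, h1, h3]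

lemma D_succ {k : ℕ} (hk : 0 < k) : D k ≤ D (k + 1) := by
  refine card_le_card_of_injOn (fun l => up hk l) ?_ ?_
  · intro l hl
    have hl' : 1 ∉ l.parts := (mem_filter.1 (mem_coe.1 hl)).2
    refine mem_coe.2 (mem_filter.2 ⟨mem_univ _, ?_⟩)
    intro h1
    rcases Multiset.mem_cons.1 h1 with h | h
    · have h2 := sup_mem (parts_ne_zero hk l)
      have h3 := l.parts_pos h2
      omega
    · exact hl' (Multiset.mem_of_mem_erase h)
  · intro l _ l' _ h
    exact up_injective hk h

lemma D_mono {i k : ℕ} (hi : 0 < i) (hik : i ≤ k) : D i ≤ D k := by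
  induction k with
  | zero => omega
  | succ k ih =>
    rcases Nat.lt_or_ge i (k + 1) with h | h
    · exact (ih (by omega)).trans (D_succ (by omega))
    · rw [le_antisymm hik h]

lemma pn_le (x j : ℕ) (hj : j ≤ x) : pn x ≤ pn (x - j) + j * D x := by
  induction j with
  | zero => simp
  | succ j ih =>
    have h1 := ih (by omega)
    have h2 : pn (x - j) = pn (x - (j + 1)) + D (x - j) := by
      have := pn_succ (x - (j + 1))
      rwa [show x - (j + 1) + 1 = x - j by omega] at this
    have h3 : D (x - j) ≤ D x := D_mono (by omega) (by omega)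
    have h4 : (j + 1) * D x = j * D x + D x := by ring
    omega

/-- the sum of the different parts is at most the sum of the parts -/
lemma sum_toFinset_le {k : ℕ} (l : Nat.Partition k) : ∑ j ∈ l.parts.toFinset, j ≤ k := by
  calc ∑ j ∈ l.parts.toFinset, j ≤ ∑ j ∈ l.parts.toFinset, l.parts.count j • j := by
        refine sum_le_sum fun j hj => ?_
        have h1 : 1 ≤ l.parts.count j := Multiset.one_le_count_iff_mem.2 (Multiset.mem_toFinset.1 hj)
        rw [smul_eq_mul]
        exact Nat.le_mul_of_pos_left j h1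
    _ = l.parts.sum := (Finset.sum_multiset_count l.parts).symm
    _ = k := l.parts_sum

lemma moment (x K : ℕ) (hK : K ≤ x) :
    ∑ j ∈ range (K + 1), j * pn (x - j) ≤ x * pn x := by
  have h1 : ∀ j ∈ range (K + 1), j * pn (x - j) =
      ∑ l : Nat.Partition x, if j ∈ l.parts then j else 0 := by
    intro j hj
    rcases Nat.eq_zero_or_pos j with rfl | hj0
    · simp
    · have hjK : j ≤ x := by
        have := mem_range.1 hj
        omega
      obtain ⟨a, rfl⟩ : ∃ a, x = a + j := ⟨x - j, by omega⟩
      rw [← sum_filter, sum_const, smul_eq_mul, card_mem a j hj0, Nat.add_sub_cancel, mul_comm]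
  rw [sum_congr rfl h1, sum_comm]
  calc ∑ l : Nat.Partition x, ∑ j ∈ range (K + 1), (if j ∈ l.parts then j else 0)
      ≤ ∑ _l : Nat.Partition x, x := by
        refine sum_le_sum fun l _ => ?_
        rw [← sum_filter]
        refine (sum_le_sum_of_subset (t := l.parts.toFinset) ?_).trans (sum_toFinset_le l)
        intro j hj
        exact Multiset.mem_toFinset.2 (mem_filter.1 hj).2
    _ = x * pn x := by
        rw [sum_const, smul_eq_mul, mul_comm]; rfl

lemma sums (p d : ℝ) (K : ℕ) : ∑ j ∈ range (K + 1), (j : ℝ) * (p - j * d) =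
    p * (K * (K + 1) / 2) - d * (K * (K + 1) * (2 * K + 1) / 6) := by
  induction K with
  | zero => simp
  | succ K ih =>
    rw [sum_range_succ, ih]
    push_cast
    ring

/-- `p(x) - p(x-1) ≥ p(x) / (4 √x)` -/
lemma D_lower (x : ℕ) (hx : 4 ≤ x) : (pn x : ℝ) ≤ 4 * Real.sqrt x * D x := by
  have hx0 : (0 : ℝ) ≤ x := Nat.cast_nonneg x
  set s := Real.sqrt x with hs
  have hs2 : s * s = x := Real.mul_self_sqrt hx0
  have hs0 : 0 ≤ s := Real.sqrt_nonneg _
  have hs4 : 2 ≤ s := by
    rw [hs]
    apply Real.le_sqrt_of_sq_le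
    have h4 : (4 : ℝ) ≤ x := by exact_mod_cast hx
    linarith
  set K := ⌈2 * s⌉₊ with hK
  have hK1 : 2 * s ≤ K := Nat.le_ceil _
  have hK2 : (K : ℝ) < 2 * s + 1 := Nat.ceil_lt_add_one (by positivity)
  have hKx : K ≤ x := by
    rw [hK, Nat.ceil_le]
    nlinarith
  have hm := moment x K hKx
  have h1 : ∑ j ∈ range (K + 1), (j : ℝ) * ((pn x : ℝ) - j * D x) ≤ x * pn x := by
    calc ∑ j ∈ range (K + 1), (j : ℝ) * ((pn x : ℝ) - j * D x)
        ≤ ∑ j ∈ range (K + 1), (j : ℝ) * pn (x - j) := by
          refine sum_le_sum fun j hj => ?_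
          have h2 := pn_le x j (by have := mem_range.1 hj; omega)
          have h3 : (pn x : ℝ) ≤ pn (x - j) + j * D x := by exact_mod_cast h2
          exact mul_le_mul_of_nonneg_left (by linarith) (Nat.cast_nonneg j)
      _ ≤ x * pn x := by exact_mod_cast hm
  rw [sums] at h1
  have hp : (0 : ℝ) ≤ pn x := Nat.cast_nonneg _
  have hD : (0 : ℝ) ≤ D x := Nat.cast_nonneg _
  have hKpos : (0 : ℝ) < K := by linarith
  have hxK : (x : ℝ) ≤ K * K / 4 := by nlinarith
  -- `p K (K+2) / 4 ≤ D K (K+1) (2K+1) / 6`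
  have h4 : (pn x : ℝ) * (K * (K + 2) / 4) ≤ D x * (K * (K + 1) * (2 * K + 1) / 6) := by
    have h5 : (x : ℝ) * pn x ≤ K * K / 4 * pn x := mul_le_mul_of_nonneg_right hxK hp
    nlinarith
  have h6 : (pn x : ℝ) * ((K + 2) / 4) ≤ D x * ((K + 1) * (2 * K + 1) / 6) := by
    have h7 : (K : ℝ) * ((pn x : ℝ) * ((K + 2) / 4)) ≤
        K * (D x * ((K + 1) * (2 * K + 1) / 6)) := by
      calc (K : ℝ) * ((pn x : ℝ) * ((K + 2) / 4)) = pn x * (K * (K + 2) / 4) := by ring
        _ ≤ D x * (K * (K + 1) * (2 * K + 1) / 6) := h4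
        _ = _ := by ring
    exact le_of_mul_le_mul_left h7 hKpos
  have h8 : (D x : ℝ) * ((K + 1) * (2 * K + 1) / 6) ≤ D x * ((K + 2) * (2 * K + 1) / 6) := by
    refine mul_le_mul_of_nonneg_left ?_ hD
    nlinarith
  have h9 : (pn x : ℝ) * ((K + 2) / 4) ≤ (4 * s * D x) * ((K + 2) / 4) := by
    have h10 : (D x : ℝ) * ((K + 2) * (2 * K + 1) / 6) ≤ (4 * s * D x) * ((K + 2) / 4) := by
      have h11 : (2 * (K : ℝ) + 1) / 6 ≤ s := by linarith
      have h12 : 0 ≤ (D x : ℝ) * (K + 2) := by positivity
      calc (D x : ℝ) * ((K + 2) * (2 * K + 1) / 6) = (D x * (K + 2)) * ((2 * K + 1) / 6) := by ring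
        _ ≤ (D x * (K + 2)) * s := mul_le_mul_of_nonneg_left h11 h12
        _ = _ := by ring
    linarith
  exact le_of_mul_le_mul_right h9 (by positivity)

end Pool.Agent.Helper32.RP
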