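import Pool.Agent.Helper32.RP.Basic

/-!
# No equal values `P_m(x) = P_n(y)` with `m ≥ 10 √x log x`
-/

open Finset

namespace Pool.Agent.Helper32.RP

lemma P_le (m k : ℕ) : P m k ≤ pn k := card_le_card (filter_subset _ _)

/-- only partitions with a part larger than `m` are lost -/
lemma pn_le_P (m x : ℕ) : pn x ≤ P m x + ∑ j ∈ Ioc m x, pn (x - j) := by
  classical
  have h := card_filter_add_card_filter_not (s := (univ : Finset (Nat.Partition x)))
    (fun l => ∀ i ∈ l.parts, i ≤ m)
  have h1 : ((univ : Finset (Nat.Partition x)).filter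
      (fun l => ¬ ∀ i ∈ l.parts, i ≤ m)).card ≤ ∑ j ∈ Ioc m x, pn (x - j) := by
    have hsub : ((univ : Finset (Nat.Partition x)).filter (fun l => ¬ ∀ i ∈ l.parts, i ≤ m)) ⊆
        (Ioc m x).biUnion (fun j => (univ : Finset (Nat.Partition x)).filter
          (fun l => j ∈ l.parts)) := by
      intro l hl
      have h2 := (mem_filter.1 hl).2
      push Not at h2
      obtain ⟨i, hi, him⟩ := h2
      have hix : i ≤ x := by
        have := Multiset.le_sum_of_mem hi
        rwa [l.parts_sum] at this
      exact mem_biUnion.2 ⟨i, mem_Ioc.2 ⟨him, hix⟩, mem_filter.2 ⟨mem_univ _, hi⟩⟩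
    refine (card_le_card hsub).trans (card_biUnion_le.trans ?_)
    refine sum_le_sum fun j hj => ?_
    obtain ⟨hj1, hj2⟩ := mem_Ioc.1 hj
    obtain ⟨a, rfl⟩ : ∃ a, x = a + j := ⟨x - j, by omega⟩
    rw [card_mem a j (by omega), Nat.add_sub_cancel]
  have h3 : pn x = P m x + ((univ : Finset (Nat.Partition x)).filter
      (fun l => ¬ ∀ i ∈ l.parts, i ≤ m)).card := h.symm
  omega

/-- add ones -/
def addOnes (j : ℕ) {a : ℕ} (l : Nat.Partition a) : Nat.Partition (a + j) where
  parts := Multiset.replicate j 1 + l.parts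
  parts_pos := by
    intro i hi
    rcases Multiset.mem_add.1 hi with h | h
    · rw [Multiset.eq_of_mem_replicate h]; norm_num
    · exact l.parts_pos h
  parts_sum := by
    rw [Multiset.sum_add, Multiset.sum_replicate, l.parts_sum, smul_eq_mul, mul_one, add_comm]

/-- If `x ≤ y`, `1 ≤ m < n ≤ y`, then `P_m(x) < P_n(y)`. -/
lemma P_lt {m n x y : ℕ} (hm : 1 ≤ m) (hmn : m < n) (hny : n ≤ y) (hxy : x ≤ y) :
    P m x < P n y := by
  classical
  obtain ⟨j, rfl⟩ : ∃ j, y = x + j := ⟨y - x, by omega⟩
  -- the extra partition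
  let e : Nat.Partition (x + j) :=
    { parts := n ::ₘ Multiset.replicate (x + j - n) 1
      parts_pos := by
        intro i hi
        rcases Multiset.mem_cons.1 hi with rfl | h
        · omega
        · rw [Multiset.eq_of_mem_replicate h]; norm_num
      parts_sum := by
        rw [Multiset.sum_cons, Multiset.sum_replicate, smul_eq_mul, mul_one]
        omega }
  have he : e ∈ (univ : Finset (Nat.Partition (x + j))).filter (fun l => ∀ i ∈ l.parts, i ≤ n) := by
    refine mem_filter.2 ⟨mem_univ _, fun i hi => ?_⟩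
    have hi' : i ∈ n ::ₘ Multiset.replicate (x + j - n) 1 := hi
    rcases Multiset.mem_cons.1 hi' with rfl | h
    · exact le_rfl
    · rw [Multiset.eq_of_mem_replicate h]; omega
  unfold P
  rw [← card_erase_add_one he]
  refine Nat.lt_succ_of_le ?_
  refine card_le_card_of_injOn (fun l => addOnes j l) ?_ ?_
  · intro l hl
    have hl' := (mem_filter.1 (mem_coe.1 hl)).2
    refine mem_coe.2 (mem_erase.2 ⟨?_, mem_filter.2 ⟨mem_univ _, ?_⟩⟩)
    · intro h
      have h' : addOnes j l = e := h
      have h1 : n ∈ (addOnes j l).parts := by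
        rw [h']
        exact Multiset.mem_cons_self n (Multiset.replicate (x + j - n) 1)
      rcases Multiset.mem_add.1 h1 with h2 | h2
      · have := Multiset.eq_of_mem_replicate h2
        omega
      · have := hl' n h2
        omega
    · intro i hi
      rcases Multiset.mem_add.1 hi with h2 | h2
      · have := Multiset.eq_of_mem_replicate h2
        omega
      · have := hl' i h2
        omega
  · intro l _ l' _ h
    apply Nat.Partition.ext
    have h1 : Multiset.replicate j 1 + l.parts = Multiset.replicate j 1 + l'.parts :=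
      congrArg Nat.Partition.parts h
    exact add_left_cancel h1

/-- geometric decay of the number of partitions -/
lemma decay (x : ℕ) (hx : 4 ≤ x) (j : ℕ) (hj : j ≤ x) :
    (pn (x - j) : ℝ) ≤ (1 - 1 / (4 * Real.sqrt x)) ^ (j - 3) * pn x := by
  set s := Real.sqrt x with hs
  have hs2 : 2 ≤ s := by
    rw [hs]
    apply Real.le_sqrt_of_sq_le
    have h4 : (4 : ℝ) ≤ x := by exact_mod_cast hx
    linarith
  set ρ := 1 - 1 / (4 * s) with hρ
  have hinv : 1 / (4 * s) ≤ 1 / 8 := by
    apply one_div_le_one_div_of_le <;> linarith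
  have hinv0 : 0 < 1 / (4 * s) := by positivity
  have hρ0 : 0 ≤ ρ := by rw [hρ]; linarith
  have hρ1 : ρ ≤ 1 := by rw [hρ]; linarith
  have hpx : (0 : ℝ) ≤ pn x := Nat.cast_nonneg _
  -- the true decay while the argument is at least `3`
  have key : ∀ i, i + 3 ≤ x → (pn (x - i) : ℝ) ≤ ρ ^ i * pn x := by
    intro i
    induction i with
    | zero => intro _; simp
    | succ i ih =>
      intro hi
      have h1 := ih (by omega)
      have h2 := pn_succ (x - (i + 1))
      rw [show x - (i + 1) + 1 = x - i by omega] at h2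
      have h3 := D_lower (x - i) (by omega)
      have h4 : Real.sqrt ((x - i : ℕ) : ℝ) ≤ s := by
        apply Real.sqrt_le_sqrt
        exact_mod_cast Nat.sub_le x i
      have h5 : (pn (x - i) : ℝ) ≤ 4 * s * D (x - i) := by
        refine h3.trans ?_
        have : (0 : ℝ) ≤ D (x - i) := Nat.cast_nonneg _
        nlinarith
      have h6 : (pn (x - i) : ℝ) / (4 * s) ≤ D (x - i) := by
        rw [div_le_iff₀ (by positivity)]
        linarith
      have h7 : (pn (x - (i + 1)) : ℝ) = pn (x - i) - D (x - i) := by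
        rw [h2]; push_cast; ring
      calc (pn (x - (i + 1)) : ℝ) ≤ pn (x - i) - pn (x - i) / (4 * s) := by rw [h7]; linarith
        _ = ρ * pn (x - i) := by rw [hρ]; ring
        _ ≤ ρ * (ρ ^ i * pn x) := mul_le_mul_of_nonneg_left h1 hρ0
        _ = ρ ^ (i + 1) * pn x := by ring
  rcases Nat.lt_or_ge j 3 with h | h
  · have h1 : pn (x - j) ≤ pn x := pn_mono (Nat.sub_le _ _)
    rw [show j - 3 = 0 by omega, pow_zero, one_mul]
    exact_mod_cast h1
  · have h1 := key (j - 3) (by omega)
    have h2 : pn (x - j) ≤ pn (x - (j - 3)) := pn_mono (by omega)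
    calc (pn (x - j) : ℝ) ≤ pn (x - (j - 3)) := by exact_mod_cast h2
      _ ≤ _ := h1

/-- for `m ≥ 10 √x log x` fewer partitions are lost than `p(x) - p(x-1)` -/
lemma lost (x m : ℕ) (hx : 9 ≤ x) (hm : 10 * Real.sqrt x * Real.log x ≤ m) :
    ∑ j ∈ Ioc m x, pn (x - j) < D x := by
  set s := Real.sqrt x with hs
  have hxr : (9 : ℝ) ≤ x := by exact_mod_cast hx
  have hss : s * s = x := Real.mul_self_sqrt (by linarith)
  have hs3 : 3 ≤ s := by
    rw [hs]
    apply Real.le_sqrt_of_sq_le
    linarith
  set ρ := 1 - 1 / (4 * s) with hρ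
  have hinv : 1 / (4 * s) ≤ 1 / 12 := by
    apply one_div_le_one_div_of_le <;> linarith
  have hinv0 : 0 < 1 / (4 * s) := by positivity
  have hρ0 : 0 < ρ := by rw [hρ]; linarith
  have hρ1 : ρ < 1 := by rw [hρ]; linarith
  have hlog : 2 < Real.log x := by
    have h1 : Real.exp 2 < x := by
      have h2 : Real.exp 2 = Real.exp 1 * Real.exp 1 := by rw [← Real.exp_add]; norm_num
      have h3 := Real.exp_one_lt_d9
      have h4 := Real.exp_pos 1
      rw [h2]
      nlinarith
    rwa [Real.lt_log_iff_exp_lt (by linarith)]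
  have hm60 : (60 : ℝ) ≤ m := by
    nlinarith
  have hm3 : 3 ≤ m := by
    have : (3 : ℝ) ≤ m := by linarith
    exact_mod_cast this
  have hpx : (0 : ℝ) < pn x := by exact_mod_cast pn_pos x
  -- geometric series
  have h1 : (∑ j ∈ Ioc m x, (pn (x - j) : ℝ)) ≤ (∑ j ∈ Ioc m x, ρ ^ (j - 3)) * pn x := by
    rw [sum_mul]
    refine sum_le_sum fun j hj => ?_
    exact decay x (by omega) j (mem_Ioc.1 hj).2
  have h2 : ∑ j ∈ Ioc m x, ρ ^ (j - 3) ≤ ρ ^ (m - 2) * (4 * s) := by
    have h3 : ∀ N, ∑ j ∈ Ioc m (m + N), ρ ^ (j - 3) ≤ ρ ^ (m - 2) * (4 * s) * (1 - ρ ^ N) := by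
      intro N
      induction N with
      | zero => simp
      | succ N ih =>
        rw [← add_assoc, Finset.sum_Ioc_succ_top (by omega)]
        have h4 : ρ ^ (m + N + 1 - 3) = ρ ^ (m - 2) * ρ ^ N := by
          rw [← pow_add]
          congr 1
          omega
        have h5 : (4 * s) * (1 - ρ) = 1 := by
          rw [hρ]
          field_simp
          ring
        rw [h4]
        have h6 : ρ ^ (m - 2) * (4 * s) * (1 - ρ ^ (N + 1)) =
            ρ ^ (m - 2) * (4 * s) * (1 - ρ ^ N) + ρ ^ (m - 2) * ρ ^ N * ((4 * s) * (1 - ρ)) := by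
          ring
        rw [h6, h5, mul_one]
        linarith
    rcases Nat.lt_or_ge m x with h | h
    · have h7 := h3 (x - m)
      rw [show m + (x - m) = x by omega] at h7
      refine h7.trans ?_
      have h8 : 0 ≤ ρ ^ (m - 2) * (4 * s) := by positivity
      have h9 : 1 - ρ ^ (x - m) ≤ 1 := by
        have : 0 ≤ ρ ^ (x - m) := by positivity
        linarith
      nlinarith
    · rw [Ioc_eq_empty (by omega), sum_empty]
      positivity
  -- the power is tiny
  have h10 : ρ ^ (m - 2) * (16 * x) < 1 := by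
    have h11 : ρ ≤ Real.exp (-(1 / (4 * s))) := by
      have := Real.add_one_le_exp (-(1 / (4 * s)))
      rw [hρ]; linarith
    have h12 : ρ ^ (m - 2) ≤ Real.exp (-(1 / (4 * s)) * ((m : ℝ) - 2)) := by
      calc ρ ^ (m - 2) ≤ Real.exp (-(1 / (4 * s))) ^ (m - 2) :=
            pow_le_pow_left₀ hρ0.le h11 _
        _ = Real.exp (-(1 / (4 * s)) * ((m : ℝ) - 2)) := by
            rw [← Real.exp_nat_mul, Nat.cast_sub (by omega)]
            congr 1
            push_cast
            ring
    have h13 : (1 / (4 * s)) * ((m : ℝ) - 2) ≥ 5 / 2 * Real.log x - 1 / 6 := by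
      have h14 : (1 / (4 * s)) * (m : ℝ) ≥ 5 / 2 * Real.log x := by
        have h15 : (1 / (4 * s)) * (10 * s * Real.log x) = 5 / 2 * Real.log x := by
          field_simp
          ring
        rw [← h15]
        exact mul_le_mul_of_nonneg_left hm hinv0.le
      nlinarith
    have h16 : 16 * (x : ℝ) = Real.exp (Real.log 16 + Real.log x) := by
      rw [Real.exp_add, Real.exp_log (by norm_num), Real.exp_log (by linarith)]
    have h17 : Real.log 16 < 2.7726 + 0.0001 := by
      have h18 : Real.log 16 = 4 * Real.log 2 := by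
        rw [show (16 : ℝ) = 2 ^ 4 by norm_num, Real.log_pow]; norm_num
      have h19 := Real.log_two_lt_d9
      rw [h18]; linarith
    calc ρ ^ (m - 2) * (16 * x) ≤ Real.exp (-(1 / (4 * s)) * ((m : ℝ) - 2)) * (16 * x) :=
          mul_le_mul_of_nonneg_right h12 (by linarith)
      _ = Real.exp (-(1 / (4 * s)) * ((m : ℝ) - 2) + (Real.log 16 + Real.log x)) := by
          rw [h16, ← Real.exp_add]
      _ < Real.exp 0 := by
          apply Real.exp_lt_exp.2
          linarith
      _ = 1 := Real.exp_zero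
  have h20 : (∑ j ∈ Ioc m x, (pn (x - j) : ℝ)) < D x := by
    have h21 := D_lower x (by omega)
    have h22 : (∑ j ∈ Ioc m x, (pn (x - j) : ℝ)) ≤ ρ ^ (m - 2) * (4 * s) * pn x :=
      h1.trans (mul_le_mul_of_nonneg_right h2 hpx.le)
    have h23 : ρ ^ (m - 2) * (4 * s) * pn x ≤ ρ ^ (m - 2) * (4 * s) * (4 * s * D x) :=
      mul_le_mul_of_nonneg_left h21 (by positivity)
    have h24 : ρ ^ (m - 2) * (4 * s) * (4 * s * D x) = ρ ^ (m - 2) * (16 * x) * D x := by
      rw [← hss]; ring
    have hDpos : (0 : ℝ) < D x := by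
      by_contra hcon
      push Not at hcon
      have h25 : 4 * s * (D x : ℝ) ≤ 0 := by
        have : 0 ≤ 4 * s := by positivity
        nlinarith
      linarith
    nlinarith
  exact_mod_cast h20

/-- There is no equality `P_m(x) = P_n(y)`, `1 ≤ m < n ≤ y`, with `m ≥ 10 √x log x`. -/
theorem main {m n x y : ℕ} (hm : 1 ≤ m) (hmn : m < n) (hny : n ≤ y) (h : P m x = P n y) :
    y < x ∧ (m : ℝ) < 10 * Real.sqrt x * Real.log x := by
  have hyx : y < x := by
    by_contra hcon
    push Not at hcon
    exact absurd h (P_lt hm hmn hny hcon).ne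
  refine ⟨hyx, ?_⟩
  by_contra hcon
  push Not at hcon
  have hmx : m < x := by omega
  rcases Nat.lt_or_ge x 9 with hx | hx
  · -- small `x`
    have hx3 : 3 ≤ x := by omega
    have h1 : (1 : ℝ) < Real.log x := by
      have h2 : Real.exp 1 < x := by
        have h3 := Real.exp_one_lt_d9
        have h4 : (3 : ℝ) ≤ x := by exact_mod_cast hx3
        linarith
      rwa [Real.lt_log_iff_exp_lt (by positivity)]
    have hxr : (x : ℝ) ≤ 9 := by exact_mod_cast hx.le
    have hs : Real.sqrt x * Real.sqrt x = x := Real.mul_self_sqrt (by positivity)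
    have hs0 : 0 ≤ Real.sqrt x := Real.sqrt_nonneg _
    have hs9 : Real.sqrt x ≤ 3 := by
      rw [Real.sqrt_le_left (by norm_num)]
      linarith
    have h5 : (x : ℝ) ≤ 10 * Real.sqrt x * Real.log x := by nlinarith
    have h6 : (x : ℝ) ≤ m := h5.trans hcon
    have h7 : x ≤ m := by exact_mod_cast h6
    omega
  · have h1 := lost x m hx hcon
    have h2 := pn_le_P m x
    have h3 : P n y ≤ pn (x - 1) := (P_le n y).trans (pn_mono (by omega))
    have h4 := pn_succ (x - 1)
    rw [show x - 1 + 1 = x by omega] at h4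
    omega

end Pool.Agent.Helper32.RP
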